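import Pool.Agent.H15.FamMain

/-! The quotient by `L = LL v A B` is a direct sum: ranks add up. -/

set_option linter.unusedSectionVars false

open Module Submodule H15

namespace H42.FO

variable {ι : Type*} [Fintype ι] {E : Type*} [AddCommGroup E] [Module ℝ E]
  [FiniteDimensional ℝ E] {v : ι → E} {A B : Set ι}

theorem finrank_eq_of_inj {E' : Type*} [AddCommGroup E'] [Module ℝ E'] {F : Type*}
    [AddCommGroup F] [Module ℝ F] (f : F →ₗ[ℝ] E') {P U V : Submodule ℝ F} (hU : U ≤ P)
    (hV : V ≤ P) (hinj : ∀ x ∈ P, f x = 0 → x = 0) :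
    finrank ℝ (U ⊓ V : Submodule ℝ F) = finrank ℝ (U.map f ⊓ V.map f : Submodule ℝ E') := by
  have h1 : (U ⊓ V).map f = U.map f ⊓ V.map f := by
    apply le_antisymm
    · exact Submodule.map_inf_le f
    · rintro y ⟨⟨u, hu, rfl⟩, ⟨w, hw, h⟩⟩
      have h2 : u - w = 0 := hinj _ (P.sub_mem (hU hu) (hV hw)) (by rw [map_sub, h, sub_self])
      have h3 : u = w := sub_eq_zero.1 h2
      exact ⟨u, ⟨hu, h3 ▸ hw⟩, rfl⟩
  rw [← h1]
  have hinj2 : Function.Injective (f.domRestrict (U ⊓ V)) := by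
    rw [← LinearMap.ker_eq_bot, LinearMap.ker_eq_bot']
    rintro ⟨x, hx⟩ h
    have := hinj x (hU hx.1) h
    exact Subtype.ext this
  have h2 := LinearMap.finrank_range_of_inj hinj2
  rw [LinearMap.range_domRestrict] at h2
  exact h2.symm

/-- one side: restrict a signed vector of the quotient by `sp v B` to `A`. -/
theorem side {a : ℕ} {f : ι → ℝ} (hd : Disjoint A B)
    (hW : ∀ i, i ∉ A → i ∉ B → v i ∈ LL v A B) {X Y : Set ι}
    (h0 : ∑ i, f i • ((sp v B).mkQ ∘ v) i = 0)
    (hr : a < finrank ℝ (LL ((sp v B).mkQ ∘ v) X Y)) :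
    (∑ i, (A.indicator f i) • v i ∈ LL v A B) ∧
    a + 1 ≤ finrank ℝ (sp ((LL v A B).mkQ ∘ v) (X ∩ A) ⊓ sp ((LL v A B).mkQ ∘ v) (Y ∩ A) :
      Submodule ℝ (E ⧸ LL v A B)) := by
  classical
  have hzero : ∀ i, i ∉ A → v i ∈ sp v B := by
    intro i hi
    by_cases hB : i ∈ B
    · exact mem_sp hB
    · exact (hW i hi hB).2
  constructor
  · constructor
    · refine Submodule.sum_mem _ fun i _ => ?_
      by_cases hi : i ∈ A
      · exact Submodule.smul_mem _ _ (mem_sp hi)
      · rw [Set.indicator_of_notMem hi, zero_smul]; exact zero_mem _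
    · have h1 : ∑ i, f i • v i ∈ sp v B := by
        rw [← Submodule.Quotient.mk_eq_zero, ← Submodule.mkQ_apply, map_sum]
        rw [← h0]
        exact Finset.sum_congr rfl fun i _ => by rw [map_smul]; rfl
      have h2 : ∑ i, (A.indicator f i) • v i = ∑ i, f i • v i - ∑ i, (Aᶜ.indicator f i) • v i := by
        rw [← Finset.sum_sub_distrib]
        refine Finset.sum_congr rfl fun i _ => ?_
        by_cases hi : i ∈ A
        · rw [Set.indicator_of_mem hi, Set.indicator_of_notMem (by simpa using hi), zero_smul,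
            sub_zero]
        · rw [Set.indicator_of_notMem hi, Set.indicator_of_mem (by simpa using hi), zero_smul,
            sub_self]
      show _ ∈ sp v B
      rw [h2]
      refine Submodule.sub_mem _ h1 (Submodule.sum_mem _ fun i _ => ?_)
      by_cases hi : i ∈ A
      · rw [Set.indicator_of_notMem (by simpa using hi), zero_smul]; exact zero_mem _
      · exact Submodule.smul_mem _ _ (hzero i hi)
  · -- the map `E / L → E / sp v B`
    have hle : LL v A B ≤ sp v B := inf_le_right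
    let φ : (E ⧸ LL v A B) →ₗ[ℝ] (E ⧸ sp v B) := Submodule.mapQ _ _ LinearMap.id (by
      intro x hx; exact hle hx)
    have hφ : ∀ x : E, φ ((LL v A B).mkQ x) = (sp v B).mkQ x := fun x => rfl
    have hmap : ∀ Z : Set ι, (sp ((LL v A B).mkQ ∘ v) (Z ∩ A)).map φ =
        sp ((sp v B).mkQ ∘ v) Z := by
      intro Z
      rw [← sp_comp]
      apply le_antisymm
      · rw [sp_le]
        rintro i ⟨hi, -⟩
        exact mem_sp (v := (sp v B).mkQ ∘ v) hi
      · rw [sp_le]
        intro i hi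
        by_cases hA : i ∈ A
        · exact mem_sp (v := φ ∘ ((LL v A B).mkQ ∘ v)) ⟨hi, hA⟩
        · have : ((sp v B).mkQ ∘ v) i = 0 := by
            show (sp v B).mkQ (v i) = 0
            rw [Submodule.mkQ_apply, Submodule.Quotient.mk_eq_zero]
            exact hzero i hA
          rw [this]; exact zero_mem _
    have hP : ∀ Z : Set ι, sp ((LL v A B).mkQ ∘ v) (Z ∩ A) ≤ (sp v A).map (LL v A B).mkQ := by
      intro Z
      rw [sp_le]
      rintro i ⟨-, hi⟩
      exact ⟨v i, mem_sp hi, rfl⟩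
    have hinj : ∀ x ∈ (sp v A).map (LL v A B).mkQ, φ x = 0 → x = 0 := by
      rintro x ⟨e, he, rfl⟩ h
      rw [hφ, Submodule.mkQ_apply, Submodule.Quotient.mk_eq_zero] at h
      rw [Submodule.mkQ_apply, Submodule.Quotient.mk_eq_zero]
      exact ⟨he, h⟩
    have := finrank_eq_of_inj φ (hP X) (hP Y) hinj
    rw [hmap, hmap] at this
    have h3 : finrank ℝ (LL ((sp v B).mkQ ∘ v) X Y) =
      finrank ℝ (sp ((sp v B).mkQ ∘ v) X ⊓ sp ((sp v B).mkQ ∘ v) Y : Submodule ℝ _) := rfl
    omega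

/-- modulo `L` the ranks of the quotients by `sp v B` and by `sp v A` add up. -/
theorem quot_add (hd : Disjoint A B) (hW : ∀ i, i ∉ A → i ∉ B → v i ∈ LL v A B) {a b : ℕ}
    (h1 : ¬ Bdd ((sp v B).mkQ ∘ v) a) (h2 : ¬ Bdd ((sp v A).mkQ ∘ v) b) :
    ¬ Bdd ((LL v A B).mkQ ∘ v) (a + b + 1) := by
  classical
  unfold Bdd at h1 h2 ⊢
  push Not at h1 h2 ⊢
  obtain ⟨X1, Y1, ⟨c, hc0, hc1, hc2⟩, hr1⟩ := h1
  obtain ⟨X2, Y2, ⟨e, he0, he1, he2⟩, hr2⟩ := h2
  obtain ⟨hs1, hf1⟩ := side hd hW hc0 hr1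
  have hW' : ∀ i, i ∉ B → i ∉ A → v i ∈ LL v B A := fun i hB hA => by
    rw [LL_comm]; exact hW i hA hB
  obtain ⟨hs2, hf2⟩ := side hd.symm hW' he0 hr2
  have hLL : LL v B A = LL v A B := LL_comm
  rw [hLL] at hs2 hf2
  refine ⟨(X1 ∩ A) ∪ (X2 ∩ B), (Y1 ∩ A) ∪ (Y2 ∩ B), ⟨fun i => A.indicator c i + B.indicator e i,
    ?_, ?_, ?_⟩, ?_⟩
  · have h3 : ∑ i, (A.indicator c i + B.indicator e i) • v i ∈ LL v A B := by
      simp only [add_smul, Finset.sum_add_distrib]
      exact Submodule.add_mem _ hs1 hs2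
    have h4 : ∑ i, (A.indicator c i + B.indicator e i) • ((LL v A B).mkQ ∘ v) i =
        (LL v A B).mkQ (∑ i, (A.indicator c i + B.indicator e i) • v i) := by
      rw [map_sum]
      exact Finset.sum_congr rfl fun i _ => by rw [map_smul]; rfl
    rw [h4, Submodule.mkQ_apply, Submodule.Quotient.mk_eq_zero]
    exact h3
  · intro i
    by_cases hA : i ∈ A
    · have hB : i ∉ B := fun h => Set.disjoint_left.1 hd hA h
      simp only [Set.indicator_of_mem hA, Set.indicator_of_notMem hB, add_zero, hc1, Set.mem_union,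
        Set.mem_inter_iff, hA, hB, and_true, and_false, or_false]
    · by_cases hB : i ∈ B
      · simp only [Set.indicator_of_mem hB, Set.indicator_of_notMem hA, zero_add, he1,
          Set.mem_union, Set.mem_inter_iff, hA, hB, and_true, and_false, false_or]
      · simp only [Set.indicator_of_notMem hB, Set.indicator_of_notMem hA, zero_add,
          lt_irrefl, Set.mem_union, Set.mem_inter_iff, hA, hB, and_false, or_false]
  · intro i
    by_cases hA : i ∈ A
    · have hB : i ∉ B := fun h => Set.disjoint_left.1 hd hA h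
      simp only [Set.indicator_of_mem hA, Set.indicator_of_notMem hB, add_zero, hc2, Set.mem_union,
        Set.mem_inter_iff, hA, hB, and_true, and_false, or_false]
    · by_cases hB : i ∈ B
      · simp only [Set.indicator_of_mem hB, Set.indicator_of_notMem hA, zero_add, he2,
          Set.mem_union, Set.mem_inter_iff, hA, hB, and_true, and_false, false_or]
      · simp only [Set.indicator_of_notMem hB, Set.indicator_of_notMem hA, zero_add,
          lt_irrefl, Set.mem_union, Set.mem_inter_iff, hA, hB, and_false, or_false]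
  · -- dimensions
    set S1 := (sp ((LL v A B).mkQ ∘ v) (X1 ∩ A) ⊓ sp ((LL v A B).mkQ ∘ v) (Y1 ∩ A) :
      Submodule ℝ (E ⧸ LL v A B)) with hS1
    set S2 := (sp ((LL v A B).mkQ ∘ v) (X2 ∩ B) ⊓ sp ((LL v A B).mkQ ∘ v) (Y2 ∩ B) :
      Submodule ℝ (E ⧸ LL v A B)) with hS2
    have hle : S1 ⊔ S2 ≤ LL ((LL v A B).mkQ ∘ v) ((X1 ∩ A) ∪ (X2 ∩ B)) ((Y1 ∩ A) ∪ (Y2 ∩ B)) := by
      apply sup_le
      · exact inf_le_inf (sp_mono Set.subset_union_left) (sp_mono Set.subset_union_left)
      · exact inf_le_inf (sp_mono Set.subset_union_right) (sp_mono Set.subset_union_right)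
    have hbot : S1 ⊓ S2 = ⊥ := by
      rw [eq_bot_iff]
      rintro x ⟨⟨hx1, -⟩, ⟨hx2, -⟩⟩
      have hx1' : x ∈ (sp v A).map (LL v A B).mkQ := by
        have : sp ((LL v A B).mkQ ∘ v) (X1 ∩ A) ≤ (sp v A).map (LL v A B).mkQ := by
          rw [sp_le]
          rintro i ⟨-, hi⟩
          exact ⟨v i, mem_sp hi, rfl⟩
        exact this hx1
      have hx2' : x ∈ (sp v B).map (LL v A B).mkQ := by
        have : sp ((LL v A B).mkQ ∘ v) (X2 ∩ B) ≤ (sp v B).map (LL v A B).mkQ := by
          rw [sp_le]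
          rintro i ⟨-, hi⟩
          exact ⟨v i, mem_sp hi, rfl⟩
        exact this hx2
      obtain ⟨p, hp, rfl⟩ := hx1'
      obtain ⟨q, hq, hqp⟩ := hx2'
      have h5 : q - p ∈ LL v A B := by
        rw [← Submodule.Quotient.mk_eq_zero, ← Submodule.mkQ_apply, map_sub, hqp, sub_self]
      have h6 : p ∈ sp v B := by
        have := (sp v B).sub_mem hq h5.2
        rwa [sub_sub_cancel] at this
      rw [Submodule.mem_bot, Submodule.mkQ_apply, Submodule.Quotient.mk_eq_zero]
      exact ⟨hp, h6⟩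
    have h7 := Submodule.finrank_sup_add_finrank_inf_eq S1 S2
    rw [hbot, finrank_bot, add_zero] at h7
    have h8 := Submodule.finrank_mono hle
    omega

end H42.FO
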